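import Mathlib
import Pool.Agent.N575.LDT.Main

/-!
# Exact Triangle with real weights: decision trees with linear tests

The graph is complete tripartite with `n` vertices in each part, the weights are real numbers. The
definitions are in `Pool/Agent/N575/LDT/Model.lean`:

* `wt w t`: the weight of the triangle `t`; `pot x`: the weights given by a potential `x` on the
  vertices (differences, in cyclic order), for which all triangles have the weight zero;
* `Shallow f`: the function `f` of the weights is locally constant near `pot x` for a dense set of
  potentials `x`. For example (parts 3 and 4) the sign of any analytic function which does not
  vanish on all potentials, and the integer part of any analytic function which is not an integer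
  on all potentials: all comparisons between weights, all binary digits of the weights (and so, in
  a few steps, all functions of rounded weights), all linear forms except those which vanish on all
  potentials;
* `Tree n`: decision trees; a node asks for the value of a shallow function (`free`), for the sign
  of the weight of a triangle (`tri`), or for the sign of an arbitrary linear form in any number of
  weights (`lin`). The trees may be infinite, but all branches are finite;
* `run t w`: the answer; `tris t w`, `lins t w`: the numbers of nodes `tri` and `lin` on the path
  of the computation. Nodes `free` are not counted.

We show that a saving over exhaustive search needs many long linear tests: every such test can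
replace at most `5 n` tests of triangles. This holds even for nondeterministic trees (a finite
number of trees which are sound; every instance without a triangle of weight zero is to be accepted
by one of them). Since `O (n ^ 2 log n)` linear tests of six weights are enough (Kane, Lovett and
Moran), the factor `5 n` is optimal up to the logarithm.

Proof. Near a generic potential all shallow functions are constant. A computation with `q` linear
tests on a direction `u` with constant triangle weights fixes the values of `q` linear forms. The
indicators of the `n ^ 3` triangles have together a projection of squared length at most `3 n q` to
the span of these forms, so for all but `5 n q` triangles `t` the direction can be changed, within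
the kernel of the forms, such that the weight of `t` becomes zero and all others remain positive.
-/

set_option autoImplicit false

namespace Pool.Agent.Results.MP_62fbe0_lc.LinearTests

open Pool.Agent.N575.LDT

/-- 1. Let `t i`, `i` in a finite set, be decision trees none of which accepts weights with a
triangle of weight zero. Then there are weights `w`, with all triangle weights positive, such that
every tree which accepts `w` makes `T` tests of triangles and `q` other linear tests with
`n ^ 3 ≤ T + 5 n q`.
2. There is a decision tree with at most `n ^ 3` tests of triangles and without other linear tests
which accepts exactly the weights without a triangle of weight zero.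
3., 4. Examples of shallow functions. -/
theorem result :
    (∀ (n : ℕ) (ι : Type) [Finite ι] (t : ι → Tree n),
      (∀ i w, (t i).run w = true → ∀ s, wt w s ≠ 0) →
      ∃ w : Wts n, (∀ s, 0 < wt w s) ∧
        ∀ i, (t i).run w = true → n ^ 3 ≤ (t i).tris w + 5 * n * (t i).lins w) ∧
    (∀ n : ℕ, ∃ t : Tree n, ∀ w : Wts n,
      (t.run w = true ↔ ∀ s, wt w s ≠ 0) ∧ t.tris w ≤ n ^ 3 ∧ t.lins w = 0) ∧
    (∀ (n : ℕ) (g : Wts n → ℝ), AnalyticOnNhd ℝ g Set.univ → (∃ x, g (pot x) ≠ 0) →
      Shallow fun w => ((SignType.sign (g w) : SignType) : ℤ)) ∧
    (∀ (n : ℕ) (g : Wts n → ℝ), AnalyticOnNhd ℝ g Set.univ → (∃ x, ∀ m : ℤ, g (pot x) ≠ m) →
      Shallow fun w => ⌊g w⌋) :=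
  ⟨fun _ _ _ t ht => lower t ht, upper, fun _ _ hg h => shallow_sign hg h,
    fun _ _ hg h => shallow_floor hg h⟩

end Pool.Agent.Results.MP_62fbe0_lc.LinearTests
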