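import Mathlib
import Pool.Agent.N452.TF.ExactTriUp

/-!
# Exact triangle: the trade-off between dimension and number of readings

The input consists of the `3 n ^ 2` weights of a complete tripartite graph with three parts of `n`
vertices; the weights are integers between `- (n + 1)` and `n + 1` (`InRange`). Is there a triangle of
weight zero (`zeroTri`)? The items of the input are the single weights.

*Formulas* (`Fml`). The wires carry vectors of dimension `d` with real coordinates (of unlimited
precision). The leaves are vectors, or matrices which are applied to a vector (`act`), which depend in
an arbitrary way on one item, or on `w` words with `n ^ c` values, each of which is an arbitrary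
function of one item. The gates are sums, arbitrary bilinear maps of two vectors (`bil`), tests of the
sign of a linear form with two arbitrary vectors as results (`test`), and gates `sym` of any fan-in
whose value is an arbitrary function of the number of the inputs for which a linear form is positive.
So products of matrices of order `d` (weighted automata, also quantum automata, with unbounded error)
and the contractions of tensor networks whose intermediate tensors have at most `d` entries are
formulas of this kind; the case `d = 1` contains all real formulas.

*Circuits* (`Circuit`) compute shared bits; each bit is the result of a branching program whose tests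
are formulas, and the leaves may also read the bits computed before. Only the `n ^ 2` weights of the
edges between the first two parts have to be paid: a leaf which reads such a weight pays one, a
reading of another weight is free, and a reading of a shared bit costs the number of the `n ^ 2`
weights on which the bit depends. The cost is the sum of these prices for all leaves, plus the number of
inner nodes of the branching programs, plus the number of wires which lead to gates `sym`. All other
gates and constants are free.

(1) Random circuits with error probability at most `1 / 3` have cost
`s ≥ n ^ 3 / (1100 (w c + d ^ 2) log₂ n)`.
(2) For `d ≥ 2 b` one formula of dimension `d`, without shared bits, has cost at most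
`2 n ^ 2 ((2 n + 3) / b ^ 2 + 1) + 1`.

So for constant `w`, `c` and for `1 ≤ d ≤ √n` the least cost is of the order `n ^ 3 / d ^ 2` up to the
logarithm: with vectors of dimension `d` a weight has to be read only `O (1 + n / d ^ 2)` times, and not
less often up to the logarithm, if there are no shared bits which depend on many weights.

Proof. (1) The weight of an edge `i j` can ask for each of `n` bits which are encoded in the weights of
the edges between the second and the third part. We count the functions of this weight which arise when
the others are fixed. If `r` leaves see it or bits which depend on it, there are `O (r)` places at which
other parts enter, and the function of the vector at such a place is an affine map or a function of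
the sign of an affine form, so it is given by `O (d ^ 2)` parameters; Warren's theorem bounds the number
of sign patterns, and the values of the shared bits are treated one after the other.
(2) With two readings of a weight one can look up an entry of a table with `b ^ 2` entries: the first
reading gives a unit vector, then the matrix of the table, whose entries are the numbers of the paths
of a given weight from `i` to `j` through the third part, is applied by a chain of bilinear maps, one
for each entry, and the second reading gives a linear form.
-/

set_option autoImplicit false

namespace Pool.Agent.Results.MP_62fbe0_lc.TensorCircuits

open Pool.Agent.TH697.Form (IsProb)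
open Pool.Agent.TH697.Row (ApproximatesOn)
open Pool.Agent.Y638.RF.ZT (InRange zeroTri)
open Pool.Agent.N452.TF (Circuit)
open Pool.Agent.N452.TF.ExactTri (edges)

theorem result :
    (∀ n c w d : ℕ, 2048 ≤ n → 1 ≤ c → 1 ≤ w → 1 ≤ d →
      ∀ (Ω : Type) [Fintype Ω] (μ : Ω → ℝ), IsProb μ →
        ∀ (s : ℕ) (C : Ω → Circuit (Fin 3 × Fin n × Fin n) (fun _ => ℤ) w (n ^ c) d),
          (∀ ω, (C ω).circ.cost (edges n) ≤ s) →
          ApproximatesOn μ (fun ω => (C ω).eval) InRange zeroTri →
          (n : ℝ) ^ 3 ≤ 1100 * (w * c + (d : ℝ) ^ 2) * Real.logb 2 n * s) ∧
    (∀ n w q b d : ℕ, 1 ≤ b → 2 * b ≤ d →
      ∃ C : Circuit (Fin 3 × Fin n × Fin n) (fun _ => ℤ) w q d, C.bits = 0 ∧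
        C.circ.cost (edges n) ≤ 2 * n ^ 2 * ((2 * n + 3) / b ^ 2 + 1) + 1 ∧
          ∀ x, InRange x → C.eval x = zeroTri x) :=
  ⟨fun _ _ _ _ hn hc hw hd _ _ μ hμ s C hs hC =>
    Pool.Agent.N452.TF.ExactTri.bound hn hc hw hd μ hμ s C hs hC,
    fun n w q b d hb hd => Pool.Agent.N452.TF.ExactTri.upper_dim n w q b d hb hd⟩

end Pool.Agent.Results.MP_62fbe0_lc.TensorCircuits
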