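import Mathlib
import Pool.Agent.N575.ZT.Tri

/-!
# Exact Triangle with real weights: random decision trees with errors on both sides

The graph is complete tripartite with `n` vertices in each part, the weights are real numbers. The
definitions are in `Pool/Agent/N575/LDT/Model.lean` (`Edge`, `Tri`, `wt`, `pot`),
`Pool/Agent/N575/ZT/Model.lean` (`Conf`, `Alg`, for general families of linear forms) and
`Pool/Agent/N575/ZT/Tri.lean` (`triConf`):

* `LDT.wt w t`: the weight of the triangle `t` (the form `(triConf n).form t`, see `tri_val`);
* `LDT.pot x`: the weights given by a potential `x` on the vertices (differences, in cyclic order), for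
  which all triangles have the weight zero (`(triConf n).pot x`);
* `(triConf n).Shallow f`: the integer valued function `f` of the weights is locally constant near
  `pot x` for a dense set of potentials `x`, for example the sign of every analytic function which
  does not vanish at all potentials (part 3): comparisons between weights, all linear forms and
  polynomials except those which vanish at all potentials;
* `(triConf n).Regular f`: the real function `f` of the weights is, for generic (a comeagre set of)
  potentials `x`, differentiable at `pot x`, with a value or a derivative which is not zero; for
  example every analytic function which does not vanish of the second order at all potentials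
  (part 2);
* `Alg (triConf n) Bool`: decision trees; a node asks for the value of a shallow function (`free`),
  for the sign of the weight of a triangle (`test`), or for the sign of a regular function
  (`smooth`). The trees may be infinite, but all branches are finite;
* `run t w`: the answer; `tests t w`, `smooths t w`: the numbers of nodes `test` and `smooth` on the
  path of the computation. Nodes `free` are not counted.

Let a random decision tree tell with error probability `1 / 3` whether there is a triangle of weight
zero (it is enough that this holds for weights where all triangles have nonnegative weights and at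
most one has weight zero), and let `T` and `q` bound the mean numbers of the tests of triangles and
of the regular tests if all triangles have positive weights. Then
`n ^ 3 ≤ 5 T + 115 n ^ 2 √(q (3 log n + 5))`, so for `T ≤ n ^ 3 / 10` at least `c n ^ 2 / log n`
regular tests are necessary. `O (n ^ 2 (log n) ^ 2)` linear tests suffice (Kane, Lovett and Moran).
The earlier hand-in `LinearTests` for this problem is about nondeterministic trees (no errors on
the other side) with linear tests, where `n ^ 3 ≤ T + 5 n q`.

Proof. Near a generic potential there remain the tests of triangles and linear tests for a direction
`u`. Take `u = a + σ g` with a Gaussian vector `g`. For a triangle `τ` with indicator `s` let `u'` be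
the projection of `u` orthogonal to `s`: the weight of `τ` is zero, all others remain positive. The
distributions of `u` and of `u'` are mutually singular, but a tree of linear tests cannot see this
if the projection of `s` to the span of the tested forms is small: the path of the computation for
`u` is the same as for the input moved by a vector orthogonal to `s` with the same values of the
tested forms, which is small (`dz`, `main_zz` in `Pool/Agent/N575/ZT`). So `u` is compared with `u'`
by an adaptive shear orthogonal to `s`, whose relative entropy is of the order of the mean square of
the projection of `s / σ` to the span of the tested forms. The tree is pruned where this projection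
becomes large. For all `τ` together the projections have at most the squared length `3 n q / σ ^ 2`.
-/

set_option autoImplicit false

namespace Pool.Agent.Results.MP_62fbe0_lc.TwoSidedError

open Pool.Agent.N575.LDT (Edge Tri wt acc)
open Pool.Agent.N575.ZT

/-- all triangles have positive weights -/
def AllPositive {n : ℕ} (w : Edge n → ℝ) : Prop := ∀ s : Tri n, 0 < wt w s

/-- one triangle has weight zero, all others have positive weights -/
def OneZero {n : ℕ} (w : Edge n → ℝ) : Prop :=
  ∃ τ : Tri n, wt w τ = 0 ∧ ∀ s, s ≠ τ → 0 < wt w s

open Classical in
/-- the probability of `Y` -/
noncomputable def prob {ι : Type} [Fintype ι] (p : ι → ℝ) (Y : ι → Prop) : ℝ :=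
  ∑ i, if Y i then p i else 0

/-- the mean of `Y` -/
def mean {ι : Type} [Fintype ι] (p : ι → ℝ) (Y : ι → ℕ) : ℝ := ∑ i, p i * Y i

theorem prob_eq {ι : Type} [Fintype ι] (p : ι → ℝ) (Y : ι → Bool) :
    prob p (fun i => Y i = true) = ∑ i, p i * acc (Y i) := by
  unfold prob acc
  refine Finset.sum_congr rfl fun i _ => ?_
  split_ifs <;> simp

/-- 1. Random decision trees (`t i` with probability `p i`) which accept with probability at least
`2 / 3` if all triangles have positive weights, and with probability at most `1 / 3` if one
triangle has weight zero and the others have positive weights. `T` and `q` bound the mean numbers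
of the tests of triangles and of the tests of regular functions in the first case.
2. An analytic function is regular if for some potential its value or its derivative is not zero.
3. The sign of an analytic function is shallow if for some potential its value is not zero. -/
theorem result :
    (∀ n : ℕ, 1 ≤ n → ∀ (ι : Type) [Fintype ι] (p : ι → ℝ),
      (∀ i, 0 ≤ p i) → ∑ i, p i = 1 → ∀ (t : ι → Alg (triConf n) Bool) (T q : ℝ),
      (∀ w, AllPositive w → 2 / 3 ≤ prob p fun i => (t i).run w = true) →
      (∀ w, OneZero w → (prob p fun i => (t i).run w = true) ≤ 1 / 3) →
      (∀ w, AllPositive w →
        mean p (fun i => (t i).tests w) ≤ T ∧ mean p (fun i => (t i).smooths w) ≤ q) →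
      (n : ℝ) ^ 3 ≤ 5 * T + 115 * n ^ 2 * √(q * (3 * Real.log n + 5))) ∧
    (∀ (n : ℕ) (f : (Edge n → ℝ) → ℝ), AnalyticOnNhd ℝ f Set.univ →
      (∃ x, f ((triConf n).pot x) ≠ 0 ∨ fderiv ℝ f ((triConf n).pot x) ≠ 0) →
      (triConf n).Regular f) ∧
    (∀ (n : ℕ) (f : (Edge n → ℝ) → ℝ), AnalyticOnNhd ℝ f Set.univ →
      (∃ x, f ((triConf n).pot x) ≠ 0) →
      (triConf n).Shallow fun w => ((SignType.sign (f w) : SignType) : ℤ)) := by
  refine ⟨?_, fun n f hf h => regular_analytic hf h, fun n f hf h => shallow_sign hf h⟩
  intro n hn ι _ p hp hp1 t T q h1 h2 h3
  refine tri_final hp hp1 id t hn (T := T) (q := q) ?_ ?_
  · intro w hw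
    have h4 := h1 w hw
    have h5 := h3 w hw
    rw [prob_eq] at h4
    exact ⟨h4, h5.1, h5.2⟩
  · intro w τ hτ hw
    have h4 := h2 w ⟨τ, hτ, hw⟩
    rw [prob_eq] at h4
    exact h4

end Pool.Agent.Results.MP_62fbe0_lc.TwoSidedError
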